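import Pool.Agent.K7.H17.Theta.Three

/-!
MP_d7339e_co, Q2: the theta graph `Θ_{3,3,3}` is metrizable.
-/

namespace Pool.Agent.Results.MP_d7339e_co.ThetaThree

open Pool.Agent.K7.H17.Theta

/-- The theta graph with three arms of `3` edges is metrizable. -/
theorem result : Metrizable (theta ![3, 3, 3]) :=
  theta_three

end Pool.Agent.Results.MP_d7339e_co.ThetaThree
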