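import Pool.Agent.K7.H17.Theta.Inst

/-!
MP_d7339e_co, Q1: every theta graph `Θ_{2,b,c}` with `b, c ≥ 2` is metrizable.
-/

namespace Pool.Agent.Results.MP_d7339e_co.ThetaTwo

open Pool.Agent.K7.H17.Theta

/-- Every theta graph with arms of `2`, `b` and `c` edges (`b, c ≥ 2`) is metrizable. -/
theorem result : ∀ b c : ℕ, 2 ≤ b → 2 ≤ c → Metrizable (theta ![2, b, c]) :=
  theta_two

end Pool.Agent.Results.MP_d7339e_co.ThetaTwo
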